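import Pool.Agent.H68.GP.Targets

/-!
# GP, module ENS: the encoding of the labelled function
-/

set_option autoImplicit false

namespace Pool.Agent.H73.GP

open Finset Pool.Agent.H68.AC Pool.Agent.H68.GP

theorem ENS (hENG : T_ENG) : T_ENS := by
  classical
  intro k r ℓ a' n' n m w G _ _ e f hk hw hG hn hrw hwn
  -- the variables
  have hcard : Fintype.card ((Fin k × Fin ℓ) ⊕ (Fin n' × Fin a') ⊕ Unit) ≤ Fintype.card (Fin n) := by
    simp only [Fintype.card_sum, Fintype.card_prod, Fintype.card_fin, Fintype.card_unit]
    omega
  obtain ⟨vr⟩ := Function.Embedding.nonempty_of_card_le hcard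
  set v₀ : Fin n := vr (Sum.inr (Sum.inr ())) with hv₀
  -- the decoding
  have hcardG : Fintype.card G ≤ Fintype.card (Fin a' → Bool) := by
    simpa using hG
  obtain ⟨emb⟩ := Function.Embedding.nonempty_of_card_le hcardG
  set dec : (Fin a' → Bool) → G := Function.invFun emb with hdec
  have hdec1 : ∀ g, dec (emb g) = g := Function.leftInverse_invFun emb.injective
  set X : (Fin n → Bool) → Fin k → Fin ℓ → Bool := fun a i u => a (vr (Sum.inl (i, u))) with hX
  set Bq : (Fin n → Bool) → Fin n' → G := fun a i => dec (fun u => a (vr (Sum.inr (Sum.inl (i, u)))))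
    with hBq
  set val : Fin k → (Fin n → Bool) → VL k r (Fin ℓ → Bool) G := fun j a =>
    (pos e (X a) j, lin f (Bq a) j) with hval
  set T : Fin k → Finset (Fin n) := fun j =>
    (univ : Finset (Option (Fin r) × Fin ℓ)).image (fun t => vr (Sum.inl (sc e j t.1, t.2))) ∪
    (univ : Finset (Fin 4 × Fin a')).image (fun t => vr (Sum.inr (Sum.inl (f j t.1, t.2)))) with hT
  have hTcard : ∀ j, (T j).card ≤ w := by
    intro j
    refine (card_union_le _ _).trans ((Nat.add_le_add card_image_le card_image_le).trans ?_)
    simp only [card_univ, Fintype.card_prod, Fintype.card_option, Fintype.card_fin]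
    exact hrw
  have hTv : ∀ j, T j ⊆ univ.erase v₀ := by
    intro j i hi
    rw [mem_erase]
    refine ⟨?_, mem_univ _⟩
    rintro rfl
    rcases mem_union.1 hi with h | h
    · obtain ⟨t, _, ht⟩ := mem_image.1 h
      exact absurd (vr.injective ht) (by simp)
    · obtain ⟨t, _, ht⟩ := mem_image.1 h
      exact absurd (vr.injective ht) (by simp)
  have hW : ∀ j, ∃ W : Finset (Fin n), T j ⊆ W ∧ W ⊆ univ.erase v₀ ∧ W.card = w := by
    intro j
    apply Finset.exists_subsuperset_card_eq (hTv j) (hTcard j)
    rw [card_erase_of_mem (mem_univ _), card_univ, Fintype.card_fin]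
    omega
  choose W hTW hWv hWc using hW
  obtain ⟨σ, inc, h1, h2, h3⟩ := hENG (VL k r (Fin ℓ → Bool) G) k n m w val W v₀ hk hw
    (fun j hj => by
      have := hWv j hj
      rw [mem_erase] at this
      exact this.1 rfl) hWc (by
      intro j a b hab
      have e1 : ∀ o u, X a (sc e j o) u = X b (sc e j o) u := by
        intro o u
        apply hab
        apply hTW
        exact mem_union_left _ (mem_image.2 ⟨(o, u), mem_univ _, rfl⟩)
      have e2 : ∀ i, Bq a (f j i) = Bq b (f j i) := by
        intro i
        simp only [hBq]
        congr 1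
        funext u
        apply hab
        apply hTW
        exact mem_union_right _ (mem_image.2 ⟨(i, u), mem_univ _, rfl⟩)
      simp only [hval]
      refine Prod.ext ?_ ?_
      · simp only [pos]
        refine Prod.ext rfl ?_
        funext o u
        exact e1 o u
      · simp only [lin]
        exact sum_congr rfl (fun i _ => e2 i))
  refine ⟨σ, inc, h1, ?_, ?_⟩
  · rintro y ⟨x, b, hxb⟩
    let a : Fin n → Bool := fun i => if h : ∃ t, vr t = i then
      (match h.choose with
        | Sum.inl (i, u) => x i u
        | Sum.inr (Sum.inl (i, u)) => emb (b i) u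
        | Sum.inr (Sum.inr _) => true) else false
    have ha : ∀ t, a (vr t) = (match t with
        | Sum.inl (i, u) => x i u
        | Sum.inr (Sum.inl (i, u)) => emb (b i) u
        | Sum.inr (Sum.inr _) => true) := by
      intro t
      have h : ∃ t', vr t' = vr t := ⟨t, rfl⟩
      have hc : h.choose = t := vr.injective h.choose_spec
      simp only [a]
      rw [dif_pos h, hc]
    have hXa : X a = x := by
      funext i u
      exact ha (Sum.inl (i, u))
    have hBa : Bq a = b := by
      funext i
      simp only [hBq]
      have : (fun u => a (vr (Sum.inr (Sum.inl (i, u))))) = emb (b i) := by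
        funext u
        exact ha (Sum.inr (Sum.inl (i, u)))
      rw [this, hdec1]
    refine ⟨a, h2 y a (ha (Sum.inr (Sum.inr ()))) ?_⟩
    intro j
    simp only [hval, hXa, hBa]
    exact hxb j
  · intro y g hg a
    have h4 := hg (X a) (Bq a)
    have h5 : (univ.filter (fun j => y (val j a) = true)).card +
        (univ.filter (fun j => y (val j a) = false)).card = k := by
      have := Finset.card_filter_add_card_filter_not (s := (univ : Finset (Fin k)))
        (fun j => y (val j a) = true)
      rw [card_univ, Fintype.card_fin] at this
      simpa only [Bool.not_eq_true] using this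
    have h6 : k - g ≤ (univ.filter (fun j => y (val j a) = false)).card := by
      have h7 : (univ.filter (fun j => y (val j a) = true)).card ≤ g := h4
      omega
    exact (Nat.mul_le_mul_left _ h6).trans (h3 y a)

end Pool.Agent.H73.GP
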