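import Pool.Agent.H68.GP.Targets
import Pool.Agent.H34.QA.HGX

/-!
# GP, module UNX: sparse matrices with unique neighbours exist
-/

set_option autoImplicit false

namespace Pool.Agent.H73.GP

open Finset Pool.Agent.H68.AC Pool.Agent.H68.GP
open Pool.Agent.H34.QA (card_biUnion_real choose_bound geom_third)

/-- maps which send the rows in `H` into `S` -/
def BadN {k n' : ℕ} (S : Finset (Fin n')) (H : Finset (Fin k)) : Finset (Fin k → Fin 4 → Fin n') :=
  Fintype.piFinset (fun j => Fintype.piFinset (fun _ => if j ∈ H then S else univ))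

lemma card_BadN {k n' : ℕ} (S : Finset (Fin n')) (H : Finset (Fin k)) {x : ℝ} (_hx0 : 0 ≤ x)
    (hx : (S.card : ℝ) ≤ x * n') :
    ((BadN S H).card : ℝ) ≤ (n' : ℝ) ^ (4 * k) * x ^ (4 * H.card) := by
  have h1 : ((BadN S H).card : ℝ)
      = ∏ j : Fin k, (if j ∈ H then (S.card : ℝ) ^ 4 else (n' : ℝ) ^ 4) := by
    simp only [BadN, Fintype.card_piFinset]
    push_cast
    apply prod_congr rfl
    intro j _
    by_cases hj : j ∈ H <;> simp [hj]
  have h2 : ∀ j ∈ (univ : Finset (Fin k)), (if j ∈ H then (S.card : ℝ) ^ 4 else (n' : ℝ) ^ 4) ≤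
      (n' : ℝ) ^ 4 * (if j ∈ H then x ^ 4 else 1) := by
    intro j _
    split_ifs
    · rw [← mul_pow]
      exact pow_le_pow_left₀ (by positivity) (by linarith) 4
    · simp
  rw [h1]
  refine (prod_le_prod (fun j _ => by split_ifs <;> positivity) h2).trans (le_of_eq ?_)
  rw [prod_mul_distrib, prod_const, card_univ, Fintype.card_fin, prod_ite, prod_const, prod_const_one,
    mul_one, filter_mem_eq_inter, univ_inter, ← pow_mul, ← pow_mul]

/-- the set which receives the rows of a set without unique neighbours -/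
lemma exists_small {k n' : ℕ} (f : Fin k → Fin 4 → Fin n') (H : Finset (Fin k))
    (hH : ∀ j ∈ H, ∀ i, ∃ j' ∈ H, ∃ i', f j' i' = f j i ∧ ¬ (j' = j ∧ i' = i))
    (h2 : 2 * H.card ≤ n') :
    ∃ S : Finset (Fin n'), S.card = 2 * H.card ∧ ∀ j ∈ H, ∀ i, f j i ∈ S := by
  classical
  set T : Finset (Fin k × Fin 4) := H ×ˢ univ with hT
  set g : Fin k × Fin 4 → Fin n' := fun p => f p.1 p.2 with hg
  have h1 : 2 * (T.image g).card ≤ T.card := by
    apply Finset.mul_card_image_le_card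
    intro a ha
    obtain ⟨⟨j, i⟩, hji, rfl⟩ := mem_image.1 ha
    have hj : j ∈ H := (mem_product.1 hji).1
    obtain ⟨j', hj', i', he, hne⟩ := hH j hj i
    have h3 : ({(j, i), (j', i')} : Finset (Fin k × Fin 4)) ⊆ {x ∈ T | g x = g (j, i)} := by
      intro x hx
      rw [mem_insert, mem_singleton] at hx
      rcases hx with rfl | rfl
      · exact mem_filter.2 ⟨hji, rfl⟩
      · exact mem_filter.2 ⟨mem_product.2 ⟨hj', mem_univ _⟩, he⟩
    have h4 : ({(j, i), (j', i')} : Finset (Fin k × Fin 4)).card = 2 := by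
      apply card_pair
      intro h
      apply hne
      exact ⟨(congrArg Prod.fst h).symm, (congrArg Prod.snd h).symm⟩
    rw [← h4]
    exact card_le_card h3
  have h3 : (T.image g).card ≤ 2 * H.card := by
    have : T.card = H.card * 4 := by rw [hT, card_product, card_univ, Fintype.card_fin]
    omega
  obtain ⟨S, h4, _, h5⟩ := Finset.exists_subsuperset_card_eq (subset_univ (T.image g)) h3
    (by rw [card_univ, Fintype.card_fin]; exact h2)
  refine ⟨S, h5, fun j hj i => h4 ?_⟩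
  exact mem_image.2 ⟨(j, i), mem_product.2 ⟨hj, mem_univ _⟩, rfl⟩

open Classical in
/-- maps without unique neighbours -/
lemma bad_un (k n' h : ℕ) (y : ℝ) (hk : 1 ≤ k) (hn : 1 ≤ n') (h2 : 2 * h ≤ n')
    (hy : 4 * (k : ℝ) * h ≤ y * n' ^ 2) :
    ((univ.filter fun f : Fin k → Fin 4 → Fin n' => ¬ UN f h).card : ℝ)
      ≤ (n' : ℝ) ^ (4 * k) * ∑ i ∈ Icc 1 h, (Real.exp 3 * y) ^ i := by
  have hk0 : (0 : ℝ) < k := by exact_mod_cast hk
  have hn0 : (0 : ℝ) < n' := by exact_mod_cast hn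
  have hcov : (univ.filter fun f : Fin k → Fin 4 → Fin n' => ¬ UN f h)
      ⊆ (Icc 1 h).biUnion (fun i => (powersetCard i univ ×ˢ powersetCard (2 * i) univ).biUnion
        (fun q : Finset (Fin k) × Finset (Fin n') => BadN q.2 q.1)) := by
    intro f hf
    have hf := (mem_filter.1 hf).2
    unfold UN at hf
    push Not at hf
    obtain ⟨H, hne, hH, hc⟩ := hf
    have hH1 : 1 ≤ H.card := hne.card_pos
    have hi : H.card ∈ Icc 1 h := mem_Icc.2 ⟨hH1, hH⟩
    obtain ⟨S, hSc, hS⟩ := exists_small f H (by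
      intro j hj i
      obtain ⟨j', hj', i', he, hne'⟩ := hc j hj i
      exact ⟨j', hj', i', he, fun hh => hne' hh.1 hh.2⟩) (by omega)
    refine mem_biUnion.2 ⟨H.card, hi, mem_biUnion.2 ⟨(H, S), ?_, ?_⟩⟩
    · rw [mem_product, mem_powersetCard, mem_powersetCard]
      exact ⟨⟨subset_univ _, rfl⟩, subset_univ _, hSc⟩
    · simp only [BadN, Fintype.mem_piFinset]
      intro j i
      by_cases hj : j ∈ H
      · rw [if_pos hj]
        exact hS j hj i
      · simp [hj]
  have hterm : ∀ i ∈ Icc 1 h, (((powersetCard i (univ : Finset (Fin k)) ×ˢ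
      powersetCard (2 * i) (univ : Finset (Fin n'))).biUnion
        (fun q : Finset (Fin k) × Finset (Fin n') => BadN q.2 q.1)).card : ℝ) ≤
        (n' : ℝ) ^ (4 * k) * (Real.exp 3 * y) ^ i := by
    intro i hi
    obtain ⟨hi1, hih⟩ := mem_Icc.1 hi
    have hi0 : (0 : ℝ) < i := by exact_mod_cast hi1
    have hx0 : 0 ≤ (2 * i : ℝ) / n' := by positivity
    have h1 := card_biUnion_real (powersetCard i (univ : Finset (Fin k)) ×ˢ
      powersetCard (2 * i) (univ : Finset (Fin n')))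
      (fun q : Finset (Fin k) × Finset (Fin n') => BadN q.2 q.1)
      ((n' : ℝ) ^ (4 * k) * ((2 * i : ℝ) / n') ^ (4 * i)) (by
        intro q hq
        rw [mem_product, mem_powersetCard, mem_powersetCard] at hq
        have h2 := card_BadN q.2 q.1 hx0 (by
          rw [hq.2.2, div_mul_cancel₀ _ hn0.ne']
          push_cast
          exact le_refl _)
        rwa [hq.1.2] at h2)
    refine h1.trans ?_
    rw [card_product, card_powersetCard, card_powersetCard, card_univ, card_univ, Fintype.card_fin,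
      Fintype.card_fin]
    push_cast
    have c1 := choose_bound k i hk
    have c2 := choose_bound n' (2 * i) hn
    push_cast at c2
    have e1 : ((2 * i : ℝ) / n') ^ (4 * i)
        = ((i : ℝ) / k) ^ i * ((2 * i : ℝ) / n') ^ (2 * i) * (4 * k * i / (n' : ℝ) ^ 2) ^ i := by
      have e2 : ((2 * i : ℝ) / n') ^ (4 * i) = ((2 * i : ℝ) / n') ^ (2 * i) *
          (((2 * i : ℝ) / n') ^ 2) ^ i := by
        rw [← pow_mul, ← pow_add]
        congr 1
        ring
      rw [e2, mul_right_comm, ← mul_pow, mul_comm (((2 * i : ℝ) / n') ^ (2 * i))]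
      congr 2
      field_simp
      ring
    have c3 : 4 * k * i / (n' : ℝ) ^ 2 ≤ y := by
      rw [div_le_iff₀ (by positivity)]
      have : (i : ℝ) ≤ h := by exact_mod_cast hih
      calc 4 * (k : ℝ) * i ≤ 4 * k * h := by gcongr
        _ ≤ _ := hy
    have c4 : (4 * k * i / (n' : ℝ) ^ 2) ^ i ≤ y ^ i := pow_le_pow_left₀ (by positivity) c3 i
    calc ((k.choose i : ℝ) * (n'.choose (2 * i) : ℝ)) *
          ((n' : ℝ) ^ (4 * k) * ((2 * i : ℝ) / n') ^ (4 * i))
        = (n' : ℝ) ^ (4 * k) * (((k.choose i : ℝ) * ((i : ℝ) / k) ^ i) *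
          ((n'.choose (2 * i) : ℝ) * ((2 * i : ℝ) / n') ^ (2 * i)) *
          (4 * k * i / (n' : ℝ) ^ 2) ^ i) := by rw [e1]; ring
      _ ≤ (n' : ℝ) ^ (4 * k) * (Real.exp i * Real.exp (2 * i) * y ^ i) := by gcongr
      _ = (n' : ℝ) ^ (4 * k) * (Real.exp 3 * y) ^ i := by
          rw [mul_pow, ← Real.exp_nat_mul, ← Real.exp_add]
          congr 3
          ring
  calc ((univ.filter fun f : Fin k → Fin 4 → Fin n' => ¬ UN f h).card : ℝ)
      ≤ (((Icc 1 h).biUnion (fun i => (powersetCard i (univ : Finset (Fin k)) ×ˢ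
        powersetCard (2 * i) (univ : Finset (Fin n'))).biUnion
        (fun q : Finset (Fin k) × Finset (Fin n') => BadN q.2 q.1))).card : ℝ) := by
          exact_mod_cast card_le_card hcov
    _ ≤ ∑ i ∈ Icc 1 h, (((powersetCard i (univ : Finset (Fin k)) ×ˢ
      powersetCard (2 * i) (univ : Finset (Fin n'))).biUnion
        (fun q : Finset (Fin k) × Finset (Fin n') => BadN q.2 q.1)).card : ℝ) := by
          exact_mod_cast card_biUnion_le
    _ ≤ ∑ i ∈ Icc 1 h, (n' : ℝ) ^ (4 * k) * (Real.exp 3 * y) ^ i := sum_le_sum hterm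
    _ = _ := by rw [mul_sum]

theorem UNX : T_UNX := by
  classical
  intro θ hθ hθ1
  refine ⟨θ ^ 2 / 2000, by positivity, ⌈2 / θ⌉₊ + 1, fun k hk => ?_⟩
  have hk1 : 1 ≤ k := by omega
  have hk0 : (0 : ℝ) < k := by exact_mod_cast hk1
  have hkθ : 2 ≤ θ * k := by
    have h1 : (2 / θ : ℝ) ≤ k := by
      have h2 := Nat.le_ceil (2 / θ)
      have h3 : ((⌈2 / θ⌉₊ : ℕ) : ℝ) ≤ k := by exact_mod_cast (by omega : ⌈2 / θ⌉₊ ≤ k)
      linarith
    rw [div_le_iff₀ hθ] at h1
    linarith
  set n' := ⌊θ * k⌋₊ with hn'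
  have hn'le : (n' : ℝ) ≤ θ * k := Nat.floor_le (by positivity)
  have hn'ge : θ * k / 2 ≤ n' := by
    have := Nat.lt_floor_add_one (θ * k)
    rw [← hn'] at this
    linarith
  have hn1 : 1 ≤ n' := by
    have : (1 : ℝ) ≤ n' := by linarith
    exact_mod_cast this
  have hn0 : (0 : ℝ) < n' := by exact_mod_cast hn1
  have hnk : n' ≤ k := by
    have : (n' : ℝ) ≤ k := by nlinarith
    exact_mod_cast this
  set h := ⌊θ ^ 2 / 2000 * k⌋₊ with hh
  have hhle : (h : ℝ) ≤ θ ^ 2 / 2000 * k := Nat.floor_le (by positivity)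
  have h2h : 2 * h ≤ n' := by
    have : (2 * h : ℝ) ≤ n' := by
      have h1 : θ ^ 2 ≤ θ := by nlinarith
      have h2 : θ ^ 2 * k ≤ θ * k := mul_le_mul_of_nonneg_right h1 hk0.le
      linarith
    exact_mod_cast this
  have hy : 4 * (k : ℝ) * h ≤ 1 / 100 * (n' : ℝ) ^ 2 := by
    have h1 : (θ * k / 2) ^ 2 ≤ (n' : ℝ) ^ 2 := pow_le_pow_left₀ (by positivity) hn'ge 2
    have h2 : 4 * (k : ℝ) * h ≤ 4 * k * (θ ^ 2 / 2000 * k) := by gcongr
    nlinarith [sq_nonneg (θ * k)]
  by_contra hcon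
  push Not at hcon
  have hall : (univ.filter fun f : Fin k → Fin 4 → Fin n' => ¬ UN f h) = univ := by
    rw [filter_true_of_mem]
    intro f _
    exact hcon n' f hnk hn'le
  have hb := bad_un k n' h (1 / 100) hk1 hn1 h2h hy
  rw [hall, card_univ, Fintype.card_fun, Fintype.card_fun, Fintype.card_fin, Fintype.card_fin,
    Fintype.card_fin, ← pow_mul] at hb
  push_cast at hb
  have hexp : Real.exp 3 < 21 := by
    have h1 : Real.exp 3 = Real.exp 1 ^ 3 := by
      rw [← Real.exp_nat_mul]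
      norm_num
    have h2 := Real.exp_one_lt_d9
    have h3 := Real.exp_pos 1
    rw [h1]
    calc Real.exp 1 ^ 3 < 2.7182818286 ^ 3 := by gcongr
      _ < 21 := by norm_num
  have hg := geom_third (Real.exp 3 * (1 / 100)) (by positivity) (by linarith) h
  have hP : (0 : ℝ) < (n' : ℝ) ^ (4 * k) := by positivity
  nlinarith

end Pool.Agent.H73.GP
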